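import Pool.Agent.Helper2.TS.Spec
import Pool.Agent.Helper72.EP.Count

/-!
# TS, part REP: small representatives modulo the kernel of a residue map
-/

set_option autoImplicit false

open Polynomial Module

namespace Pool.Agent.Helper72.TS

open Pool.Agent.Helper2.TS
open Pool.Agent.Helper20.EP (RootsLE)
open Pool.Agent.Helper72.EP (Bd exists_rep res res_pt coeff_le mul_x_bd val)

theorem rep : S_REP := by
  classical
  intro D
  refine ⟨D + D * (3 * D + 1), ?_⟩
  rintro g H ⟨hm, hi, hd, hD1, hH, hr⟩ p hp r hr0 j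
  subst hd
  set D := g.natDegree with hD
  haveI := Fact.mk hp
  have hprime : Prime g := hi.prime
  haveI : IsDomain (AdjoinRoot g) := AdjoinRoot.isDomain_of_prime hprime
  haveI : Module.Free ℤ (AdjoinRoot g) := hm.free_adjoinRoot
  haveI : Module.Finite ℤ (AdjoinRoot g) := hm.finite_adjoinRoot
  have hbk : ∀ k, (AdjoinRoot.powerBasisAux' hm) k = AdjoinRoot.root g ^ (k : ℕ) :=
    (AdjoinRoot.powerBasis' hm).basis_eq_pow
  have hDr : (0 : ℝ) < D := by exact_mod_cast hD1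
  have hp0 : (0 : ℝ) < p := by exact_mod_cast hp.pos
  have hpz : (0 : ℤ) < p := by exact_mod_cast hp.pos
  -- the constant `K`
  set G : ℕ := ⌈H ^ D * 2 ^ D⌉₊ with hG
  have hG1 : 1 ≤ G := Nat.one_le_ceil_iff.2 (by positivity)
  have hcoef : ∀ i, |g.coeff i| ≤ (G : ℤ) := by
    intro i
    have h1 := coeff_le g hm H hH hr i
    have h2 : (|g.coeff i| : ℝ) ≤ G := h1.trans (Nat.le_ceil _)
    exact_mod_cast h2
  set K : ℕ := D * G with hK
  have hK1 : 1 ≤ K := Nat.mul_pos hD1 hG1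
  have hx : ∀ v A, Bd (AdjoinRoot.powerBasisAux' hm) v A →
      Bd (AdjoinRoot.powerBasisAux' hm) (AdjoinRoot.root g * v) ((K : ℤ) * A) := by
    intro v A hv
    have := mul_x_bd g hm (G : ℤ) (by exact_mod_cast hG1) hcoef v A hv
    rw [hK]
    push_cast
    exact this
  have hDH : (D : ℝ) ≤ H ^ D := by
    have h1 : (D : ℝ) ≤ 2 ^ D := by exact_mod_cast (Nat.lt_two_pow_self (n := D)).le
    exact h1.trans (pow_le_pow_left₀ (by norm_num) hH D)
  have h2H : (2 : ℝ) ^ D ≤ H ^ D := pow_le_pow_left₀ (by norm_num) hH D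
  have hH1 : (1 : ℝ) ≤ H := by linarith
  have hKle : (K : ℝ) ≤ H ^ (3 * D + 1) := by
    have h1 : (G : ℝ) ≤ H ^ D * 2 ^ D + 1 := (Nat.ceil_lt_add_one (by positivity)).le
    have h2 : (1 : ℝ) ≤ H ^ D * 2 ^ D := by
      have a1 : (1 : ℝ) ≤ H ^ D := one_le_pow₀ (by linarith)
      have a2 : (1 : ℝ) ≤ 2 ^ D := one_le_pow₀ (by norm_num)
      nlinarith
    have h3 : (G : ℝ) ≤ H * (H ^ D * H ^ D) := by
      calc (G : ℝ) ≤ 2 * (H ^ D * 2 ^ D) := by linarith
        _ ≤ H * (H ^ D * H ^ D) := by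
          refine mul_le_mul hH ?_ (by positivity) (by linarith)
          exact mul_le_mul_of_nonneg_left h2H (by positivity)
    rw [hK]
    push_cast
    calc (D : ℝ) * G ≤ H ^ D * (H * (H ^ D * H ^ D)) :=
          mul_le_mul hDH h3 (by positivity) (by positivity)
      _ = H ^ (3 * D + 1) := by ring
  -- the residue map
  set r' : ℕ := (r % p).toNat with hr'
  have hr'z : (r' : ℤ) = r % p := Int.toNat_of_nonneg (Int.emod_nonneg _ hpz.ne')
  have hrr : (p : ℤ) ∣ r - r' := by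
    rw [hr'z]
    exact Int.dvd_self_sub_emod
  have hev : (p : ℤ) ∣ g.eval (r' : ℤ) := by
    have h1 : r - (r' : ℤ) ∣ g.eval r - g.eval (r' : ℤ) := Polynomial.sub_dvd_eval_sub r r' g
    have h2 := hrr.trans h1
    exact (dvd_sub_right hr0).1 h2
  set s : ℝ := 1 / (D : ℝ) with hs
  have hs0 : 0 < s := by positivity
  set m : ℕ := ⌊(p : ℝ) ^ s⌋₊ with hmdef
  have hm1 : p < (m + 1) ^ D := by
    have h1 : (p : ℝ) ^ s < m + 1 := Nat.lt_floor_add_one _
    have h2 : ((p : ℝ) ^ s) ^ D = p := by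
      rw [← Real.rpow_natCast, ← Real.rpow_mul hp0.le, hs, one_div, inv_mul_cancel₀ hDr.ne',
        Real.rpow_one]
    have h3 : (p : ℝ) < ((m : ℝ) + 1) ^ D := by
      calc (p : ℝ) = ((p : ℝ) ^ s) ^ D := h2.symm
        _ < ((m : ℝ) + 1) ^ D :=
          pow_lt_pow_left₀ h1 (Real.rpow_nonneg hp0.le _) (by omega)
    exact_mod_cast h3
  have hmle : (m : ℝ) ≤ (p : ℝ) ^ s := Nat.floor_le (Real.rpow_nonneg hp0.le _)
  obtain ⟨t, ht1, ht2⟩ := exists_rep (AdjoinRoot.powerBasisAux' hm) (AdjoinRoot.root g) (K : ℤ)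
    (by exact_mod_cast hK1) hx hbk (res g p r' hev) m hm1 ((j : ℤ) : AdjoinRoot g)
  set a : Fin D → ℤ := (AdjoinRoot.powerBasisAux' hm).equivFun t with ha
  have hta : t = (AdjoinRoot.powerBasisAux' hm).equivFun.symm a := by
    rw [ha, LinearEquiv.symm_apply_apply]
  refine ⟨a, ?_, ?_⟩
  · have h1 : (p : ℤ) ∣ val a r' - j := by
      rw [hta, res_pt, map_intCast] at ht1
      rw [← ZMod.intCast_zmod_eq_zero_iff_dvd, Int.cast_sub, ht1, sub_self]
    have h2 : (p : ℤ) ∣ evz r a - val a r' := by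
      unfold evz val
      rw [← Finset.sum_sub_distrib]
      refine Finset.dvd_sum fun i _ => ?_
      rw [← mul_sub]
      exact (hrr.trans (sub_dvd_pow_sub_pow _ _ _)).mul_left _
    have := dvd_add h2 h1
    rwa [sub_add_sub_cancel] at this
  · intro i
    have h1 := ht2 i
    have h2 : a i = (AdjoinRoot.powerBasisAux' hm).repr t i := by
      rw [ha, Basis.equivFun_apply]
    rw [← h2] at h1
    have h3 : (|a i| : ℝ) ≤ (D : ℝ) * ((K : ℝ) ^ D * m) := by exact_mod_cast h1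
    refine h3.trans ?_
    have h4 : (K : ℝ) ^ D ≤ H ^ (D * (3 * D + 1)) := by
      calc (K : ℝ) ^ D ≤ (H ^ (3 * D + 1)) ^ D := pow_le_pow_left₀ (by positivity) hKle D
        _ = H ^ (D * (3 * D + 1)) := by rw [← pow_mul, mul_comm]
    calc (D : ℝ) * ((K : ℝ) ^ D * m) ≤ H ^ D * (H ^ (D * (3 * D + 1)) * (p : ℝ) ^ s) := by
          refine mul_le_mul hDH ?_ (by positivity) (by positivity)
          exact mul_le_mul h4 hmle (by positivity) (by positivity)
      _ = (p : ℝ) ^ s * H ^ (D + D * (3 * D + 1)) := by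
          rw [pow_add]
          ring

end Pool.Agent.Helper72.TS
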